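import Pool.Agent.H29.ENR.Stmts11

/-!
# Board enr, row Q7B
-/

set_option autoImplicit false

namespace Pool.ENR

open Pool.Agent.H81.ENG Pool.Agent.H55.NEU

namespace Q7B

variable {F : Type} [Field F]

theorem sq (M : Matrix (Fin 2) (Fin 2) F) :
    M * M = M.trace • M - M.det • (1 : Matrix (Fin 2) (Fin 2) F) := by
  ext i j
  fin_cases i <;> fin_cases j <;>
    simp [Matrix.mul_apply, Fin.sum_univ_two, Matrix.trace_fin_two, Matrix.det_fin_two] <;> ring

theorem par (M : Matrix (Fin 2) (Fin 2) F) (t : F) (h : (M - t • (1 : Matrix (Fin 2) (Fin 2) F)) *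
    (M - t • (1 : Matrix (Fin 2) (Fin 2) F)) = 0) (n : ℕ) :
    M ^ (n + 1) = t ^ (n + 1) • (1 : Matrix (Fin 2) (Fin 2) F) +
      (((n : F) + 1) * t ^ n) • (M - t • (1 : Matrix (Fin 2) (Fin 2) F)) := by
  induction n with
  | zero => simp
  | succ n ih =>
    rw [pow_succ, ih]
    set K := M - t • (1 : Matrix (Fin 2) (Fin 2) F) with hK
    have hM : M = t • (1 : Matrix (Fin 2) (Fin 2) F) + K := by rw [hK]; abel
    conv_lhs => rw [hM]
    rw [add_mul, mul_add, mul_add]
    simp only [smul_mul_assoc, mul_smul_comm, one_mul, mul_one, h, smul_zero, add_zero]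
    push_cast
    module

end Q7B

theorem Q7B_thm (hA : Q7AStmt) (hM : Q7MStmt) (hC : CMMStmt) (hB : BR2Stmt) (h3 : Q3CStmt) :
    Q7BStmt := by
  intro F _ _ hF σ N m hσ hm d hd
  rcases Nat.lt_or_ge m 2 with hm2 | hm2
  · -- `m ≤ 1`
    have h2 : 2 ∣ ed d := by
      unfold ed
      split_ifs with h
      · exact Dvd.dvd.mul_left (Nat.dvd_of_mod_eq_zero h) _
      · exact Dvd.intro _ rfl
    interval_cases m
    · simp
    · simpa using h2
  have hσ2 : σ ^ 2 ≠ 1 := by
    intro h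
    apply hm
    obtain ⟨k, hk⟩ : 2 ∣ 2 ^ m := dvd_pow_self 2 (by omega)
    rw [hk, pow_mul, h, one_pow]
  obtain ⟨M, hdet, hCM⟩ := hA F hF σ N hσ
  have h2F : (2 : F) ≠ 0 := by
    intro h
    have h1 : addOrderOf (1 : F) = 2 := by
      haveI : Fact (Nat.Prime 2) := ⟨Nat.prime_two⟩
      exact addOrderOf_eq_prime (by rw [nsmul_eq_mul]; simpa using h) one_ne_zero
    have h4 : addOrderOf (1 : F) ∣ Nat.card F := addOrderOf_dvd_natCard 1
    rw [h1] at h4
    omega
  obtain ⟨c1, c2, c3, c4⟩ := hC F h2F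
  -- powers
  have hpow : ∀ n : ℕ, (M ^ n).det ≠ 0 ∧ CM F (M ^ n) (σ ^ n) := by
    intro n
    induction n with
    | zero =>
      refine ⟨by simp, ?_⟩
      have := c4 1 one_ne_zero
      rw [one_smul] at this
      rw [pow_zero, pow_zero]
      exact this
    | succ n ih =>
      refine ⟨by rw [Matrix.det_pow]; exact pow_ne_zero _ hdet, ?_⟩
      rw [pow_succ, pow_succ]
      exact c1 _ _ _ _ ih.1 hdet ih.2 hCM
  have hsc : ∀ (n : ℕ) (y : F), M ^ n = y • (1 : Matrix (Fin 2) (Fin 2) F) → σ ^ n = 1 := by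
    intro n y hy
    have hy0 : y ≠ 0 := by
      rintro rfl
      apply (hpow n).1
      rw [hy, zero_smul, Matrix.det_zero]
    have h1 := (hpow n).2
    rw [hy] at h1
    exact c2 _ _ _ (by rw [← hy]; exact (hpow n).1) h1 (c4 y hy0)
  have hs := Q7B.sq M
  -- the trace
  have htr : M.trace ≠ 0 := by
    intro h
    apply hσ2
    apply hsc 2 (-M.det)
    rw [pow_two, hs, h, zero_smul, zero_sub, neg_smul]
  have htr4 : M.trace ^ 2 ≠ 4 * M.det := by
    intro h
    apply hσ2
    set t : F := M.trace / 2 with ht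
    have htt : M.trace = 2 * t := by rw [ht]; field_simp
    have hdd : M.det = t * t := by
      have h4 : (4 : F) ≠ 0 := by
        have : (4 : F) = 2 * 2 := by norm_num
        rw [this]
        exact mul_ne_zero h2F h2F
      have h5 : (4 : F) * M.det = 4 * (t * t) := by rw [← h, htt]; ring
      exact mul_left_cancel₀ h4 h5
    have hz : (M - t • (1 : Matrix (Fin 2) (Fin 2) F)) *
        (M - t • (1 : Matrix (Fin 2) (Fin 2) F)) = 0 := by
      rw [sub_mul, mul_sub, mul_sub]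
      simp only [smul_mul_assoc, mul_smul_comm, one_mul, mul_one]
      rw [hs, htt, hdd, two_mul, add_smul, mul_smul]
      abel
    haveI := Fintype.ofFinite F
    obtain ⟨q, hq⟩ : ∃ q, Nat.card F = q + 1 := ⟨Nat.card F - 1, by omega⟩
    have hq0 : ((q : F) + 1) = 0 := by
      have h1 : ((Nat.card F : ℕ) : F) = 0 := by
        rw [Nat.card_eq_fintype_card]
        exact FiniteField.cast_card_eq_zero F
      rw [hq] at h1
      exact_mod_cast h1
    have h1 := Q7B.par M t hz q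
    rw [hq0, zero_mul, zero_smul, add_zero] at h1
    have h2 := hsc _ _ h1
    have h4 := pow_gcd_eq_one.2 ⟨h2, hσ⟩
    have h5 : Nat.gcd (q + 1) (2 ^ N) = 1 := by
      apply Nat.Coprime.pow_right
      rw [Nat.coprime_two_right]
      rw [← hq, Nat.odd_iff]
      omega
    rw [h5, pow_one] at h4
    rw [h4, one_pow]
  have htr3 : M.trace ^ 2 ≠ 3 * M.det := by
    intro h
    apply hσ2
    have h6 : M ^ 6 = (-(M.det ^ 3)) • (1 : Matrix (Fin 2) (Fin 2) F) := by
      have e3 : M * M * M = (2 * M.det) • M - (M.trace * M.det) • (1 : Matrix (Fin 2) (Fin 2) F) := by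
        rw [hs, sub_mul, smul_mul_assoc, hs, smul_mul_assoc, one_mul, smul_sub, smul_smul, smul_smul,
          ← pow_two, h]
        rw [sub_right_comm, ← sub_smul]
        congr 2
        ring
      have e6 : M ^ 6 = (M * M * M) * (M * M * M) := by
        simp only [pow_succ, pow_zero, one_mul, mul_assoc]
      rw [e6, e3, sub_mul, mul_sub, mul_sub]
      simp only [smul_mul_assoc, mul_smul_comm, one_mul, mul_one]
      rw [hs]
      simp only [smul_sub, smul_smul]
      have e7 : M.trace * M.det * (M.trace * M.det) = 3 * M.det ^ 3 := by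
        have : M.trace * M.det * (M.trace * M.det) = M.trace ^ 2 * M.det ^ 2 := by ring
        rw [this, h]
        ring
      rw [e7]
      have e8 : 2 * M.det * (2 * M.det * M.trace) = 4 * M.det ^ 2 * M.trace := by ring
      have e9 : 2 * M.det * (2 * M.det * M.det) = 4 * M.det ^ 3 := by ring
      have e10 : 2 * M.det * (M.trace * M.det) = 2 * M.det ^ 2 * M.trace := by ring
      have e11 : M.trace * M.det * (2 * M.det) = 2 * M.det ^ 2 * M.trace := by ring
      rw [e8, e9]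
      first
        | rw [e10, e11]
        | rw [e10]
        | rw [e11]
        | skip
      have e12 : (4 * M.det ^ 2 * M.trace) • M = (2 * M.det ^ 2 * M.trace) • M +
          (2 * M.det ^ 2 * M.trace) • M := by
        rw [← add_smul]; congr 1; ring
      have e13 : (4 * M.det ^ 3) • (1 : Matrix (Fin 2) (Fin 2) F) =
          (3 * M.det ^ 3) • (1 : Matrix (Fin 2) (Fin 2) F) +
            (M.det ^ 3) • (1 : Matrix (Fin 2) (Fin 2) F) := by
        rw [← add_smul]; congr 1; ring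
      rw [e12, e13, neg_smul]
      abel
    have h2 := hsc _ _ h6
    have h4 := pow_gcd_eq_one.2 ⟨h2, hσ⟩
    have h5 : Nat.gcd 6 (2 ^ N) ∣ 2 := by
      have h7 : Nat.Coprime (Nat.gcd 6 (2 ^ N)) 3 := by
        apply Nat.Coprime.coprime_dvd_left (Nat.gcd_dvd_right _ _)
        exact Nat.Coprime.pow_left _ (by norm_num)
      have h8 : Nat.gcd 6 (2 ^ N) ∣ 2 * 3 := Nat.gcd_dvd_left 6 (2 ^ N)
      exact h7.dvd_of_dvd_mul_right h8
    obtain ⟨k, hk⟩ := h5
    have h9 : σ ^ 2 = (σ ^ (Nat.gcd 6 (2 ^ N))) ^ k := by rw [← pow_mul, ← hk]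
    rw [h9, h4, one_pow]
  -- the braid partner
  obtain ⟨M', hd', hbr, hcen⟩ := hM F M h2F hdet htr htr4 htr3
  obtain ⟨t, ht⟩ := h3 F M M' 1 σ hdet one_ne_zero (by rw [hd']; ring) hCM
  set β : MulAut (PS F) := MulAut.conj t * σ with hβ
  have hd'0 : M'.det ≠ 0 := by rw [hd']; exact hdet
  have hbraid : σ * β * σ = β * σ * β := by
    have e1 := c1 _ _ _ _ (by rw [Matrix.det_mul]; exact mul_ne_zero hdet hd'0) hdet
      (c1 _ _ _ _ hdet hd'0 hCM ht) hCM
    have e2 := c1 _ _ _ _ (by rw [Matrix.det_mul]; exact mul_ne_zero hd'0 hdet) hd'0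
      (c1 _ _ _ _ hd'0 hdet ht hCM) ht
    rw [← hbr] at e2
    exact c2 _ _ _ (by
      rw [Matrix.det_mul, Matrix.det_mul]
      exact mul_ne_zero (mul_ne_zero hdet hd'0) hdet) e1 e2
  have hcomm : ∀ n : ℕ, σ ^ n * β = β * σ ^ n → σ ^ n = 1 := by
    intro n hn
    have e1 := c1 _ _ _ _ (hpow n).1 hd'0 (hpow n).2 ht
    have e2 := c1 _ _ _ _ hd'0 (hpow n).1 ht (hpow n).2
    rw [← hn] at e2
    obtain ⟨x, -, hx⟩ := c3 (M' * M ^ n) (M ^ n * M') _
      (by rw [Matrix.det_mul]; exact mul_ne_zero hd'0 (hpow n).1)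
      (by rw [Matrix.det_mul]; exact mul_ne_zero (hpow n).1 hd'0) e2 e1
    obtain ⟨y, hy⟩ := hcen n x hx
    exact hsc n y hy
  have hσA : σ ∈ ASg σ := Subgroup.subset_closure (Or.inr rfl)
  have hβA : β ∈ ASg σ :=
    (ASg σ).mul_mem (Subgroup.subset_closure (Or.inl ⟨t, rfl⟩)) hσA
  haveI : Finite (MulAut (PS F)) := inferInstance
  have hfin := hB (ASg σ) ⟨σ, hσA⟩ ⟨β, hβA⟩ (Subtype.ext hbraid) (by
    intro n hn
    have h1 := congrArg Subtype.val hn
    simp only [Subgroup.coe_mul, SubgroupClass.coe_pow] at h1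
    exact Subtype.ext (by simpa using hcomm n h1)) d hd
  have hfin' : σ ^ (2 * d) = 1 := by
    have h1 := congrArg Subtype.val hfin
    simpa using h1
  have h4 := pow_gcd_eq_one.2 ⟨hfin', hσ⟩
  obtain ⟨k, -, hk⟩ := (Nat.dvd_prime_pow Nat.prime_two).1 (Nat.gcd_dvd_right (2 * d) (2 ^ N))
  rw [hk] at h4
  have hkm : m < k := by
    by_contra hcon
    push Not at hcon
    apply hm
    obtain ⟨l, hl⟩ := pow_dvd_pow 2 hcon
    rw [hl, pow_mul, h4, one_pow]
  have h5 : 2 ^ (m + 1) ∣ 2 * d := by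
    have h6 : 2 ^ k ∣ 2 * d := by rw [← hk]; exact Nat.gcd_dvd_left _ _
    exact (pow_dvd_pow 2 (by omega)).trans h6
  rw [pow_succ, mul_comm] at h5
  exact (Nat.dvd_of_mul_dvd_mul_left two_pos h5).trans (dvd_ed d)

end Pool.ENR
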