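import Pool.Agent.H29.ENR.Stmts11

/-!
# Board enr, row SB1
-/

set_option autoImplicit false

namespace Pool.ENR

open Pool.Agent.H81.ENG Pool.Agent.H55.NEU

theorem SB1_thm (hSY4 : SY4Stmt) (hSE1 : SE1Stmt) (hSCJ : SCJStmt) (hSEC : SECStmt)
    (hCEN : CENStmt) (hAS2 : AS2Stmt) (hTS1 : TS1Stmt) : SB1Stmt := by
  intro F _ _ hF σ N m hσ hm d hd
  rcases m with _ | m
  · simp
  obtain ⟨r, hr⟩ := CharP.exists F
  haveI := Fintype.ofFinite F
  obtain ⟨f, hrp, hcard⟩ := FiniteField.card F r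
  haveI : Fact r.Prime := ⟨hrp⟩
  have hcard' : Nat.card F = r ^ (f : ℕ) := by rw [Nat.card_eq_fintype_card, hcard]
  have h2r : 2 ≠ r := by
    rintro rfl
    have h1 : 2 ∣ Nat.card F := by
      rw [hcard']
      exact dvd_pow_self 2 f.pos.ne'
    omega
  obtain ⟨h, hh⟩ := hSY4 F r f N σ f.pos hcard' hF hσ
  set e : MulAut (PS F) := MulAut.conj h with he
  have hpow : ∀ n : ℕ, ((e * σ * e⁻¹) ^ 2) ^ n = e * σ ^ (2 * n) * e⁻¹ := by
    intro n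
    rw [← pow_mul, conj_pow]
  have h1 : Sec 2 m ((e * σ * e⁻¹) ^ 2) := by
    refine hSE1 F 2 r f N m _ Nat.prime_two h2r f.pos hcard' ?_ ?_ hh
    · rw [hpow, mul_comm 2 (2 ^ N), pow_mul, hσ, one_pow, mul_one, mul_inv_cancel]
    · rw [hpow]
      intro hcon
      apply hm
      have h3 : 2 ^ (m + 1) = 2 * 2 ^ m := by rw [pow_succ]; ring
      rw [h3]
      calc σ ^ (2 * 2 ^ m) = e⁻¹ * (e * σ ^ (2 * 2 ^ m) * e⁻¹) * e := by group
        _ = 1 := by rw [hcon, mul_one, inv_mul_cancel]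
  have h2 : Sec 2 m (σ ^ 2) := by
    apply hSCJ (PS F) 2 m (σ ^ 2) e
    rw [conj_pow] at h1
    exact h1
  have h3 : (σ ^ 2) ^ (2 ^ N) = 1 := by rw [← pow_mul, mul_comm, pow_mul, hσ, one_pow]
  have h4 := hSEC (PS F) 2 m N (σ ^ 2) Nat.prime_two h3 h2 0
  have h5 : SL (σ ^ 2) d := hAS2 (PS F) σ (hCEN F) d hd (σ ^ 2)
    ((ASg σ).pow_mem (Subgroup.subset_closure (Or.inr rfl)) 2)
  have h6 := h4 d (by simpa using hTS1 (PS F) (σ ^ 2) d h5)
  simpa [Nat.add_comm] using h6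

end Pool.ENR
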